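import Pool.Agent.H28.PL.Defs

/-!
# Row APE of the board plp (helper28, MP_cd3997_nt)

The approximation by the polynomial part, even case.
-/

set_option autoImplicit false

open Finset

namespace Pool.Agent.H13.PL

open Pool.Agent.H28.PL

theorem al_be : al * be = -1 := by
  unfold al be
  have h : Real.sqrt 2 * Real.sqrt 2 = 2 := Real.mul_self_sqrt (by norm_num)
  nlinarith

theorem one_le_al : 1 ≤ al := by
  unfold al
  have := Real.sqrt_nonneg 2
  linarith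

theorem two_le_al_sq : 2 ≤ al ^ 2 := by
  unfold al
  have h : Real.sqrt 2 * Real.sqrt 2 = 2 := Real.mul_self_sqrt (by norm_num)
  have := Real.sqrt_nonneg 2
  nlinarith

/-- the terms of `WW h s (2 K)` -/
noncomputable def gg (h : ℕ → ℤ) (K : ℕ) (x y : ℝ) (j : ℕ) : ℝ :=
  if j < K then 2 ^ (2 * K - 2 * j) * (h j : ℝ) * (x * y) ^ j *
      (x ^ (2 * K - 2 * j) + y ^ (2 * K - 2 * j))
  else if j = K then (h K : ℝ) * (x * y) ^ K else 0

theorem WW_eq (hB : T_BIN) (h : ℕ → ℤ) (s K : ℕ) :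
    (WW h s (2 * K) : ℝ) = ∑ j ∈ range (K + 1), gg h K (al ^ s) (be ^ s) j := by
  have hxy : al ^ s * be ^ s = (-1) ^ s := by rw [← mul_pow, al_be]
  have hset : (range (2 * K + 1)).filter (fun j => 2 * j < 2 * K) = range K := by
    ext j
    rw [mem_filter, mem_range, mem_range]
    omega
  unfold WW
  rw [hset, if_pos (even_two_mul K), Nat.mul_div_cancel_left K (by norm_num : 0 < 2),
    Finset.sum_range_succ]
  push_cast
  congr 1
  · refine Finset.sum_congr rfl (fun j hj => ?_)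
    rw [mem_range] at hj
    unfold gg
    rw [if_pos hj, hxy, (hB (s * (2 * K - 2 * j))).2, ← pow_mul, ← pow_mul, ← pow_mul]
  · unfold gg
    rw [if_neg (lt_irrefl K), if_pos rfl, hxy, ← pow_mul]

theorem bnd (h : ℕ → ℤ) (K : ℕ) (x y : ℝ) (hx : 2 ≤ x ^ 2) (hx0 : 0 < x) (hxy : |x * y| = 1)
    (j : ℕ) :
    |2 ^ (2 * K) * (x ^ (2 * K) * ((h j : ℝ) * (y / x / 4) ^ j)) - gg h K x y j| ≤
      |(h j : ℝ)| / 8 ^ j * (2 ^ (3 * K + 1) / x ^ 2) := by
  have hxne : x ≠ 0 := hx0.ne'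
  obtain ⟨z, hz⟩ : ∃ z : ℝ, z = 1 / x ^ 2 := ⟨_, rfl⟩
  have hz0 : 0 < z := by rw [hz]; positivity
  have hz2 : 2 * z ≤ 1 := by
    rw [hz, mul_one_div, div_le_one (by positivity)]
    exact hx
  have hya : |y| = 1 / x := by
    rw [abs_mul, abs_of_pos hx0] at hxy
    field_simp
    linarith
  have hy2 : y ^ 2 = z := by
    rw [← sq_abs, hya, hz]
    field_simp
  have hRHS : |(h j : ℝ)| / 8 ^ j * (2 ^ (3 * K + 1) / x ^ 2) =
      |(h j : ℝ)| / 8 ^ j * (2 ^ (3 * K + 1) * z) := by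
    rw [hz]
    ring
  rw [hRHS]
  have ha0 : 0 ≤ |(h j : ℝ)| / 8 ^ j := by positivity
  rcases lt_trichotomy j K with hjK | rfl | hjK
  · obtain ⟨i, rfl⟩ : ∃ i, K = j + 1 + i := ⟨K - j - 1, by omega⟩
    unfold gg
    rw [if_pos hjK]
    have e0 : 2 * (j + 1 + i) - 2 * j = 2 * (i + 1) := by omega
    rw [e0]
    have e1 : 2 ^ (2 * (j + 1 + i)) * (x ^ (2 * (j + 1 + i)) * ((h j : ℝ) * (y / x / 4) ^ j)) -
        2 ^ (2 * (i + 1)) * (h j : ℝ) * (x * y) ^ j * (x ^ (2 * (i + 1)) + y ^ (2 * (i + 1))) =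
        -(2 ^ (2 * (i + 1)) * (h j : ℝ) * (x * y) ^ j * y ^ (2 * (i + 1))) := by
      have e2 : 2 ^ (2 * (j + 1 + i)) * (x ^ (2 * (j + 1 + i)) * ((h j : ℝ) * (y / x / 4) ^ j)) =
          2 ^ (2 * (i + 1)) * (h j : ℝ) * (x * y) ^ j * x ^ (2 * (i + 1)) := by
        have e3 : (2 : ℝ) ^ (2 * (j + 1 + i)) = 2 ^ (2 * (i + 1)) * 4 ^ j := by
          have : (4 : ℝ) = 2 ^ 2 := by norm_num
          rw [this, ← pow_mul, ← pow_add]
          congr 1
          ring
        have e4 : x ^ (2 * (j + 1 + i)) = x ^ (2 * (i + 1)) * (x ^ j * x ^ j) := by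
          rw [← pow_add, ← pow_add]
          congr 1
          ring
        rw [e3, e4, div_pow, div_pow, mul_pow]
        field_simp
      rw [e2]
      ring
    rw [e1, abs_neg, abs_mul, abs_mul, abs_mul, abs_pow (x * y), hxy, one_pow, mul_one,
      pow_mul y 2, hy2, abs_of_pos (by positivity : (0 : ℝ) < z ^ (i + 1)),
      abs_of_pos (by positivity : (0 : ℝ) < 2 ^ (2 * (i + 1)))]
    have e5 : (2 : ℝ) ^ (2 * (i + 1)) * |(h j : ℝ)| * z ^ (i + 1) =
        |(h j : ℝ)| / 8 ^ j * (2 ^ (3 * j + 2 * i + 2) * (z * z ^ i)) := by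
      have e6 : (2 : ℝ) ^ (3 * j + 2 * i + 2) = 8 ^ j * 2 ^ (2 * (i + 1)) := by
        have : (8 : ℝ) = 2 ^ 3 := by norm_num
        rw [this, ← pow_mul, ← pow_add]
        congr 1
      rw [e6, pow_succ z i]
      field_simp
    rw [e5]
    apply mul_le_mul_of_nonneg_left _ ha0
    have h7 : z ^ i ≤ 1 := pow_le_one₀ hz0.le (by linarith)
    have h8 : (2 : ℝ) ^ (3 * j + 2 * i + 2) ≤ 2 ^ (3 * (j + 1 + i) + 1) :=
      pow_le_pow_right₀ (by norm_num) (by omega)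
    calc (2 : ℝ) ^ (3 * j + 2 * i + 2) * (z * z ^ i) ≤ 2 ^ (3 * j + 2 * i + 2) * (z * 1) := by
          apply mul_le_mul_of_nonneg_left _ (by positivity)
          exact mul_le_mul_of_nonneg_left h7 hz0.le
      _ ≤ 2 ^ (3 * (j + 1 + i) + 1) * z := by
          rw [mul_one]
          exact mul_le_mul_of_nonneg_right h8 hz0.le
  · unfold gg
    rw [if_neg (lt_irrefl j), if_pos rfl]
    have e1 : 2 ^ (2 * j) * (x ^ (2 * j) * ((h j : ℝ) * (y / x / 4) ^ j)) -
        (h j : ℝ) * (x * y) ^ j = 0 := by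
      have e3 : (2 : ℝ) ^ (2 * j) = 4 ^ j := by
        rw [pow_mul]
        norm_num
      have e4 : x ^ (2 * j) = x ^ j * x ^ j := by
        rw [← pow_add]
        congr 1
        ring
      rw [e3, e4, div_pow, div_pow, mul_pow, sub_eq_zero]
      field_simp
    rw [e1, abs_zero]
    positivity
  · obtain ⟨i, rfl⟩ : ∃ i, j = K + 1 + i := ⟨j - K - 1, by omega⟩
    unfold gg
    rw [if_neg (by omega), if_neg (by omega), sub_zero]
    have e1 : |y / x / 4| = z / 4 := by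
      rw [abs_div, abs_div, hya, abs_of_pos hx0, abs_of_pos (by norm_num : (0 : ℝ) < 4), hz]
      field_simp
    rw [abs_mul, abs_mul, abs_mul, abs_pow (y / x / 4), e1,
      abs_of_pos (by positivity : (0 : ℝ) < 2 ^ (2 * K)),
      abs_of_pos (by positivity : (0 : ℝ) < x ^ (2 * K))]
    have e2 : x ^ (2 * K) * z ^ K = 1 := by
      rw [hz, pow_mul, ← mul_pow]
      have : x ^ 2 * (1 / x ^ 2) = 1 := by field_simp
      rw [this, one_pow]
    have e3 : (2 : ℝ) ^ (2 * K) * (x ^ (2 * K) * (|(h (K + 1 + i) : ℝ)| *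
        (z / 4) ^ (K + 1 + i))) =
        |(h (K + 1 + i) : ℝ)| / 8 ^ (K + 1 + i) * (2 ^ (3 * K + 1) * (z * (2 * z) ^ i)) := by
      have e4 : z ^ (K + 1 + i) = z ^ K * (z * z ^ i) := by
        rw [pow_add, pow_add]
        ring
      have e5 : (2 : ℝ) ^ (2 * K) * 8 ^ (K + 1 + i) = 4 ^ (K + 1 + i) * (2 ^ (3 * K + 1) * 2 ^ i) := by
        have h8 : (8 : ℝ) = 2 ^ 3 := by norm_num
        have h4 : (4 : ℝ) = 2 ^ 2 := by norm_num
        rw [h8, h4, ← pow_mul, ← pow_mul, ← pow_add, ← pow_add, ← pow_add]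
        congr 1
        ring
      rw [div_pow, e4, mul_pow]
      rw [div_mul_eq_mul_div, eq_div_iff (by positivity)]
      have h4 : (4 : ℝ) ^ (K + 1 + i) ≠ 0 := by positivity
      calc (2 : ℝ) ^ (2 * K) * (x ^ (2 * K) * (|(h (K + 1 + i) : ℝ)| *
            (z ^ K * (z * z ^ i) / 4 ^ (K + 1 + i)))) * 8 ^ (K + 1 + i)
          = (2 ^ (2 * K) * 8 ^ (K + 1 + i)) * (x ^ (2 * K) * z ^ K) *
            (|(h (K + 1 + i) : ℝ)| * (z * z ^ i)) / 4 ^ (K + 1 + i) := by ring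
        _ = |(h (K + 1 + i) : ℝ)| * (2 ^ (3 * K + 1) * (z * (2 ^ i * z ^ i))) := by
            rw [e5, e2]
            field_simp
    rw [e3]
    apply mul_le_mul_of_nonneg_left _ ha0
    have h7 : (2 * z) ^ i ≤ 1 := pow_le_one₀ (by positivity) hz2
    calc (2 : ℝ) ^ (3 * K + 1) * (z * (2 * z) ^ i) ≤ 2 ^ (3 * K + 1) * (z * 1) := by
          apply mul_le_mul_of_nonneg_left _ (by positivity)
          exact mul_le_mul_of_nonneg_left h7 hz0.le
      _ = 2 ^ (3 * K + 1) * z := by rw [mul_one]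

theorem pf_APE (hB : T_BIN) : T_APE := by
  intro h s K F B hs hSer
  obtain ⟨-, hsum, hsm, hle⟩ := hSer
  set x : ℝ := al ^ s with hx
  set y : ℝ := be ^ s with hy
  have hx1 : 1 ≤ x := one_le_pow₀ one_le_al
  have hx0 : 0 < x := by linarith
  have hxsq : 2 ≤ x ^ 2 := by
    have h1 : al ≤ x := by
      rw [hx]
      exact le_self_pow₀ one_le_al hs.ne'
    have h2 : al ^ 2 ≤ x ^ 2 := pow_le_pow_left₀ (by linarith [one_le_al]) h1 2
    exact two_le_al_sq.trans h2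
  have hxy : |x * y| = 1 := by
    rw [hx, hy, ← mul_pow, al_be, abs_pow, abs_neg, abs_one, one_pow]
  have ht : (be / al) ^ s = y / x := by rw [div_pow]
  rw [ht] at hsum
  have hf : HasSum (fun j => 2 ^ (2 * K) * (x ^ (2 * K) * ((h j : ℝ) * (y / x / 4) ^ j)))
      (2 ^ (2 * K) * (x ^ (2 * K) * F)) := (hsum.mul_left _).mul_left _
  have hg : HasSum (gg h K x y) (WW h s (2 * K) : ℝ) := by
    rw [WW_eq hB h s K]
    apply hasSum_sum_of_ne_finset_zero
    intro j hj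
    rw [mem_range] at hj
    unfold gg
    rw [if_neg (by omega), if_neg (by omega)]
  have hd := hf.sub hg
  have hbound : ∀ j, |2 ^ (2 * K) * (x ^ (2 * K) * ((h j : ℝ) * (y / x / 4) ^ j)) -
      gg h K x y j| ≤ |(h j : ℝ)| / 8 ^ j * (2 ^ (3 * K + 1) / x ^ 2) :=
    fun j => bnd h K x y hxsq hx0 hxy j
  have hs2 : Summable (fun j => |(h j : ℝ)| / 8 ^ j * (2 ^ (3 * K + 1) / x ^ 2)) :=
    hsm.mul_right _
  have hfin := hd.norm_le_of_bounded hs2.hasSum (fun j => by rw [Real.norm_eq_abs]; exact hbound j)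
  rw [Real.norm_eq_abs, tsum_mul_right] at hfin
  refine hfin.trans ?_
  have : B * 2 ^ (3 * K + 1) / x ^ 2 = B * (2 ^ (3 * K + 1) / x ^ 2) := by ring
  rw [this]
  exact mul_le_mul_of_nonneg_right hle (by positivity)

end Pool.Agent.H13.PL
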