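import Pool.Agent.H47.PL.Targets

set_option autoImplicit false

namespace Pool.Agent.H13.PL

open Finset Pool.Agent.H97.RK Pool.Agent.H47.PL

open Classical in
private theorem count_pi {n k m : ℕ} (A : Finset (Fin k → Fin n × Bool)) :
    (univ.filter fun F : Fml n k m => ∀ c, F c ∈ A).card = A.card ^ m := by
  rw [← Fintype.card_piFinset_const A m]
  congr 1
  ext F
  simp [Fintype.mem_piFinset]

open Classical in
private theorem sat_iff {n k m : ℕ} (F : Fml n k m) (σ τ : Fin n → Bool) :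
    (Dist F ∧ Sat F σ ∧ Sat F τ) ↔ ∀ c, F c ∈ Os n k σ ∩ Os n k τ := by
  unfold Os Sat
  simp only [mem_inter, mem_filter, mem_Om]
  constructor
  · rintro ⟨h1, h2, h3⟩ c
    exact ⟨⟨h1 c, h2 c⟩, h1 c, h3 c⟩
  · intro h
    exact ⟨fun c => (h c).1.1, fun c => (h c).1.2, fun c => (h c).2.2⟩

open Classical in
private theorem count_triples (n k m : ℕ) :
    ∑ p ∈ univ.filter (fun p : Fml n k m × (Fin n → Bool) => Dist p.1 ∧ Sat p.1 p.2), nsol p.1 =
      ∑ σ : Fin n → Bool, ∑ τ : Fin n → Bool, (Os n k σ ∩ Os n k τ).card ^ m := by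
  have h1 : ∀ σ τ : Fin n → Bool, (Os n k σ ∩ Os n k τ).card ^ m =
      ∑ F : Fml n k m, if Dist F ∧ Sat F σ ∧ Sat F τ then 1 else 0 := by
    intro σ τ
    rw [← count_pi, ← Finset.card_filter]
    congr 1
    ext F
    simp only [mem_filter, mem_univ, true_and]
    exact (sat_iff F σ τ).symm
  simp_rw [h1]
  rw [Finset.sum_filter, Fintype.sum_prod_type]
  have h2 : ∀ F : Fml n k m, ∀ σ : Fin n → Bool,
      (if Dist F ∧ Sat F σ then nsol F else 0) =
        ∑ τ : Fin n → Bool, if Dist F ∧ Sat F σ ∧ Sat F τ then 1 else 0 := by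
    intro F σ
    unfold nsol
    by_cases h : Dist F ∧ Sat F σ
    · rw [if_pos h, Finset.card_filter]
      refine Finset.sum_congr rfl fun τ _ => ?_
      by_cases h' : Sat F τ
      · rw [if_pos h', if_pos ⟨h.1, h.2, h'⟩]
      · rw [if_neg h', if_neg fun h'' => h' h''.2.2]
    · rw [if_neg h]
      symm
      refine Finset.sum_eq_zero fun τ _ => ?_
      rw [if_neg fun h'' => h ⟨h''.1, h''.2.1⟩]
  simp only [h2]
  rw [Finset.sum_comm]
  refine Finset.sum_congr rfl fun σ _ => ?_
  rw [Finset.sum_comm]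

private theorem sum_dst (n : ℕ) (σ : Fin n → Bool) (g : ℕ → ℝ) :
    ∑ τ : Fin n → Bool, g (dst σ τ) = ∑ w ∈ range (n + 1), (n.choose w : ℝ) * g w := by
  have h := Finset.sum_powerset_apply_card g (x := (univ : Finset (Fin n)))
  rw [Finset.card_univ, Fintype.card_fin] at h
  simp only [nsmul_eq_mul] at h
  rw [← h, Finset.powerset_univ]
  refine Fintype.sum_equiv
    { toFun := fun τ => univ.filter fun v => σ v ≠ τ v
      invFun := fun S v => xor (σ v) (decide (v ∈ S))
      left_inv := ?_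
      right_inv := ?_ } _ _ ?_
  · intro τ
    funext v
    by_cases h' : σ v = τ v
    · simp [h']
    · simp only [ne_eq, mem_filter, mem_univ, true_and, h', not_false_eq_true, decide_true]
      revert h'
      cases σ v <;> cases τ v <;> simp
  · intro S
    ext v
    simp only [ne_eq, mem_filter, mem_univ, true_and]
    by_cases h' : v ∈ S
    · cases σ v <;> simp [h']
    · cases σ v <;> simp [h']
  · intro τ
    rfl

theorem pf_PLS (hOSC : T_OSC) : T_PLS := by
  classical
  intro n k m N hN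
  have h1 : ((univ.filter fun p : Fml n k m × (Fin n → Bool) => Dist p.1 ∧ Sat p.1 p.2 ∧
      N < nsol p.1).card : ℝ) * N ≤
      ∑ p ∈ univ.filter (fun p : Fml n k m × (Fin n → Bool) => Dist p.1 ∧ Sat p.1 p.2),
        (nsol p.1 : ℝ) := by
    rw [← nsmul_eq_mul]
    refine (Finset.card_nsmul_le_sum _ (fun p : Fml n k m × (Fin n → Bool) => (nsol p.1 : ℝ)) N
      ?_).trans ?_
    · intro p hp
      rw [mem_filter] at hp
      exact hp.2.2.2.le
    · refine Finset.sum_le_sum_of_subset_of_nonneg ?_ fun _ _ _ => Nat.cast_nonneg _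
      intro p hp
      rw [mem_filter] at hp ⊢
      exact ⟨hp.1, hp.2.1, hp.2.2.1⟩
  refine h1.trans ?_
  rw [← Nat.cast_sum, count_triples, Nat.cast_sum]
  have h2 : ∀ σ : Fin n → Bool,
      ((∑ τ : Fin n → Bool, (Os n k σ ∩ Os n k τ).card ^ m : ℕ) : ℝ) =
        ∑ w ∈ range (n + 1), (n.choose w : ℝ) *
        ((2 ^ k - 2) * (n.descFactorial k : ℝ) + ((n - w).descFactorial k : ℝ)) ^ m := by
    intro σ
    rw [← sum_dst n σ fun w =>
      ((2 ^ k - 2) * (n.descFactorial k : ℝ) + ((n - w).descFactorial k : ℝ)) ^ m, Nat.cast_sum]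
    refine Finset.sum_congr rfl fun τ _ => ?_
    rw [Nat.cast_pow]
    congr 1
    have h3 := (hOSC n k σ τ).2
    have h4 : ((Os n k σ ∩ Os n k τ).card : ℝ) + 2 * (n.descFactorial k : ℝ) =
        2 ^ k * (n.descFactorial k : ℝ) + ((n - dst σ τ).descFactorial k : ℝ) := by
      exact_mod_cast h3
    linarith
  simp_rw [h2]
  rw [Finset.sum_const, nsmul_eq_mul, Finset.card_univ, Fintype.card_fun, Fintype.card_bool,
    Fintype.card_fin]
  push_cast
  exact le_rfl

end Pool.Agent.H13.PL
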