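import Pool.Agent.H47.PL.Targets2

set_option autoImplicit false

namespace Pool.Agent.H13.PL

open Finset Pool.Agent.H97.RK Pool.Agent.H47.PL

open Classical in
private theorem exp_count {n k : ℕ} (lam : ℝ) (D : Finset (Fin n)) (g : Fin k → Fin n × Bool) :
    Real.exp (lam * ((univ.filter fun i => (g i).1 ∈ D).card : ℝ)) =
      ∑ I ∈ (univ : Finset (Fin k)).powerset,
        (Real.exp lam - 1) ^ I.card * (if ∀ i ∈ I, (g i).1 ∈ D then 1 else 0) := by
  have h1 : Real.exp (lam * ((univ.filter fun i => (g i).1 ∈ D).card : ℝ)) =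
      ∏ i : Fin k, (1 + (Real.exp lam - 1) * (if (g i).1 ∈ D then 1 else 0)) := by
    rw [mul_comm, Real.exp_nat_mul, ← Finset.prod_const, Finset.prod_filter]
    refine Finset.prod_congr rfl fun i _ => ?_
    split_ifs <;> ring
  rw [h1, Finset.prod_one_add]
  refine Finset.sum_congr rfl fun I _ => ?_
  rw [Finset.prod_mul_distrib, Finset.prod_const]
  congr 1
  by_cases h : ∀ i ∈ I, (g i).1 ∈ D
  · rw [if_pos h]
    exact Finset.prod_eq_one fun i hi => if_pos (h i hi)
  · rw [if_neg h]
    push Not at h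
    obtain ⟨i, hi, h2⟩ := h
    exact Finset.prod_eq_zero hi (if_neg h2)

open Classical in
theorem pf_WTL : T_WTL := by
  intro n k α D hn hk hα hα1
  have hn' : (0 : ℝ) < n := by exact_mod_cast hn
  obtain ⟨δ, hδ⟩ : ∃ δ : ℝ, δ = (D.card : ℝ) / n := ⟨_, rfl⟩
  have hδ0 : 0 ≤ δ := by rw [hδ]; positivity
  have hδ1 : δ ≤ 1 := by
    rw [hδ, div_le_one hn']
    have := card_le_univ D
    rw [Fintype.card_fin] at this
    exact_mod_cast this
  obtain ⟨lam, hlam⟩ : ∃ lam : ℝ, lam = α / 2 := ⟨_, rfl⟩
  have hl0 : 0 < lam := by rw [hlam]; linarith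
  have hl1 : lam ≤ 1 := by rw [hlam]; linarith
  have hE0 : 0 ≤ Real.exp lam - 1 := by
    have := Real.add_one_le_exp lam
    linarith
  have hE1 : Real.exp lam - 1 ≤ lam + lam ^ 2 := by
    have := (abs_le.1 (Real.abs_exp_sub_one_sub_id_le (x := lam)
      (by rw [abs_of_pos hl0]; exact hl1))).2
    linarith
  have hcard : ∀ I : Finset (Fin k), ((cU n k D I).card : ℝ) ≤ (Om n k).card * δ ^ I.card := by
    intro I
    have h1 := card_cU D I
    have h2 : ((cU n k D I).card : ℝ) * (n : ℝ) ^ I.card ≤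
        (Om n k).card * (D.card : ℝ) ^ I.card := by exact_mod_cast h1
    rw [hδ, div_pow, mul_div_assoc', le_div_iff₀ (pow_pos hn' _)]
    exact h2
  have hsum : ∑ g ∈ Om n k, Real.exp (lam * ((univ.filter fun i => (g i).1 ∈ D).card : ℝ)) ≤
      (Om n k).card * Real.exp (k * (δ * (lam + lam ^ 2))) := by
    calc ∑ g ∈ Om n k, Real.exp (lam * ((univ.filter fun i => (g i).1 ∈ D).card : ℝ))
        = ∑ g ∈ Om n k, ∑ I ∈ (univ : Finset (Fin k)).powerset,
          (Real.exp lam - 1) ^ I.card * (if ∀ i ∈ I, (g i).1 ∈ D then 1 else 0) :=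
          Finset.sum_congr rfl fun g _ => exp_count lam D g
      _ = ∑ I ∈ (univ : Finset (Fin k)).powerset,
          (Real.exp lam - 1) ^ I.card * ((cU n k D I).card : ℝ) := by
          rw [Finset.sum_comm]
          refine Finset.sum_congr rfl fun I _ => ?_
          rw [← Finset.mul_sum]
          congr 1
          unfold cU
          rw [Finset.card_filter]
          push_cast
          rfl
      _ ≤ ∑ I ∈ (univ : Finset (Fin k)).powerset,
          (Real.exp lam - 1) ^ I.card * ((Om n k).card * δ ^ I.card) :=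
          Finset.sum_le_sum fun I _ => mul_le_mul_of_nonneg_left (hcard I) (pow_nonneg hE0 _)
      _ = (Om n k).card * (1 + (Real.exp lam - 1) * δ) ^ k := by
          have h3 : (1 + (Real.exp lam - 1) * δ) ^ k =
              ∏ _i : Fin k, (1 + (Real.exp lam - 1) * δ) := by
            rw [Finset.prod_const, Finset.card_univ, Fintype.card_fin]
          rw [h3, Finset.prod_one_add, Finset.mul_sum]
          refine Finset.sum_congr rfl fun I _ => ?_
          rw [Finset.prod_const, mul_pow]
          ring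
      _ ≤ (Om n k).card * Real.exp (k * (δ * (lam + lam ^ 2))) := by
          refine mul_le_mul_of_nonneg_left ?_ (Nat.cast_nonneg _)
          rw [Real.exp_nat_mul]
          refine pow_le_pow_left₀ (by positivity) ?_ k
          have h4 : (Real.exp lam - 1) * δ ≤ δ * (lam + lam ^ 2) := by
            rw [mul_comm]
            exact mul_le_mul_of_nonneg_left hE1 hδ0
          have h5 := Real.add_one_le_exp (δ * (lam + lam ^ 2))
          linarith
  have hmark : (((Om n k).filter (Xc α D)).card : ℝ) * Real.exp (lam * ((δ + α) * k)) ≤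
      ∑ g ∈ Om n k, Real.exp (lam * ((univ.filter fun i => (g i).1 ∈ D).card : ℝ)) := by
    rw [← nsmul_eq_mul]
    refine (Finset.card_nsmul_le_sum ((Om n k).filter (Xc α D))
      (fun g => Real.exp (lam * ((univ.filter fun i => (g i).1 ∈ D).card : ℝ)))
      (Real.exp (lam * ((δ + α) * k))) ?_).trans ?_
    · intro g hg
      rw [mem_filter] at hg
      have h6 : ((D.card : ℝ) / n + α) * k < ((univ.filter fun i => (g i).1 ∈ D).card : ℝ) :=
        hg.2
      rw [← hδ] at h6
      exact Real.exp_le_exp.2 (mul_le_mul_of_nonneg_left h6.le hl0.le)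
    · exact Finset.sum_le_sum_of_subset_of_nonneg (filter_subset _ _)
        fun _ _ _ => (Real.exp_pos _).le
  have h7 := hmark.trans hsum
  rw [← le_div_iff₀ (Real.exp_pos _), mul_div_assoc, ← Real.exp_sub] at h7
  refine h7.trans ?_
  rw [mul_comm]
  refine mul_le_mul_of_nonneg_right ?_ (Nat.cast_nonneg _)
  rw [Real.exp_le_exp]
  have hk0 : (0 : ℝ) ≤ k := Nat.cast_nonneg _
  have h8 : (k : ℝ) * (δ * (lam + lam ^ 2)) - lam * ((δ + α) * k) =
      k * (δ * lam ^ 2 - lam * α) := by ring
  rw [h8]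
  have h9 : δ * lam ^ 2 - lam * α ≤ -(α ^ 2 / 4) := by
    have : δ * lam ^ 2 ≤ lam ^ 2 := by
      have := mul_le_mul_of_nonneg_right hδ1 (sq_nonneg lam)
      linarith
    rw [hlam] at this ⊢
    nlinarith
  have h10 := mul_le_mul_of_nonneg_left h9 hk0
  linarith

end Pool.Agent.H13.PL
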